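import Mathlib

/-!
# Graphs with exactly one proper sum-colouring 3-weighting

The triangle, and more generally every disjoint union of triangles, has up to isomorphism exactly one edge
weighting with weights from a given three-element set of reals that properly colours the vertices by sums.
-/

set_option autoImplicit false

namespace Pool.Agent.Results.MP_9e9a14_co.TriangleUniqueH29

/-- The vertex sum: the sum of the weights of the edges at `v` (one edge `s(v, u)` for every
neighbour `u` of `v`). -/
noncomputable def vertexSum {V : Type} [Fintype V] (G : SimpleGraph V) (w : Sym2 V → ℝ) (v : V) : ℝ :=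
  open Classical in ∑ u with G.Adj v u, w s(v, u)

/-- `w` is an edge `S`-weighting of `G` (all edges have weights from `S`; the values of `w` outside the
edge set play no role) that properly colours the vertices of `G` by sums. -/
def ProperBySums {V : Type} [Fintype V] (S : Set ℝ) (G : SimpleGraph V) (w : Sym2 V → ℝ) : Prop :=
  (∀ u v, G.Adj u v → w s(u, v) ∈ S) ∧ ∀ u v, G.Adj u v → vertexSum G w u ≠ vertexSum G w v

/-- The edge weightings `w` and `w'` of `G` are isomorphic: some automorphism of `G` maps the first to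
the second. -/
def IsoWeightings {V : Type} (G : SimpleGraph V) (w w' : Sym2 V → ℝ) : Prop :=
  ∃ φ : G ≃g G, ∀ u v, G.Adj u v → w' s(φ u, φ v) = w s(u, v)

/-- `G` is uniquely `S`-weight colourable: it has an edge `S`-weighting that properly colours the vertices
by sums, and any two of them are isomorphic. -/
def UniquelyWeightColourable {V : Type} [Fintype V] (S : Set ℝ) (G : SimpleGraph V) : Prop :=
  (∃ w, ProperBySums S G w) ∧
    ∀ w w', ProperBySums S G w → ProperBySums S G w' → IsoWeightings G w w'

/-- The disjoint union of `m` triangles. -/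
def triangles (m : ℕ) : SimpleGraph (Fin m × Fin 3) where
  Adj p q := p.1 = q.1 ∧ p.2 ≠ q.2
  symm := ⟨fun _ _ h => ⟨h.1.symm, h.2.symm⟩⟩
  loopless := ⟨fun _ h => h.2 rfl⟩

lemma triangles_adj {m : ℕ} (p q : Fin m × Fin 3) :
    (triangles m).Adj p q ↔ p.1 = q.1 ∧ p.2 ≠ q.2 := Iff.rfl

/-- the weight of the edge opposite to the vertex `(i, a)` -/
def opp {m : ℕ} (w : Sym2 (Fin m × Fin 3) → ℝ) (i : Fin m) (a : Fin 3) : ℝ :=
  w s((i, a + 1), (i, a + 2))

lemma edge_eq {m : ℕ} (w : Sym2 (Fin m × Fin 3) → ℝ) (i : Fin m) (a b c : Fin 3) (hab : a ≠ b)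
    (hca : c ≠ a) (hcb : c ≠ b) : w s((i, a), (i, b)) = opp w i c := by
  have h1 : ∀ x y : Fin 3, w s((i, x), (i, y)) = w s((i, y), (i, x)) := fun x y => by
    rw [Sym2.eq_swap]
  unfold opp
  fin_cases a <;> fin_cases b <;> fin_cases c <;>
    first
    | exact absurd rfl hab
    | exact absurd rfl hca
    | exact absurd rfl hcb
    | rfl
    | exact h1 _ _

lemma sum_eq {m : ℕ} (w : Sym2 (Fin m × Fin 3) → ℝ) (i : Fin m) (a : Fin 3) :
    vertexSum (triangles m) w (i, a) = opp w i (a + 1) + opp w i (a + 2) := by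
  classical
  unfold vertexSum
  have h : (Finset.univ.filter (fun u => (triangles m).Adj (i, a) u)) =
      {(i, a + 1), (i, a + 2)} := by
    ext ⟨j, b⟩
    simp only [triangles_adj, Finset.mem_filter, Finset.mem_univ, true_and, Finset.mem_insert,
      Finset.mem_singleton, Prod.mk.injEq]
    constructor
    · rintro ⟨rfl, h⟩
      fin_cases a <;> fin_cases b <;> simp_all
    · rintro (⟨rfl, rfl⟩ | ⟨rfl, rfl⟩)
      · fin_cases a <;> simp
      · fin_cases a <;> simp
  rw [h, Finset.sum_pair (by intro h; simp only [Prod.mk.injEq, true_and] at h; fin_cases a <;> simp at h)]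
  rw [edge_eq w i a (a + 1) (a + 2) (by fin_cases a <;> simp) (by fin_cases a <;> simp)
      (by fin_cases a <;> simp),
    edge_eq w i a (a + 2) (a + 1) (by fin_cases a <;> simp) (by fin_cases a <;> simp)
      (by fin_cases a <;> simp)]
  ring

lemma opp_injective {m : ℕ} {S : Set ℝ} {w : Sym2 (Fin m × Fin 3) → ℝ}
    (h : ProperBySums S (triangles m) w) (i : Fin m) : Function.Injective (opp w i) := by
  have key : ∀ a b : Fin 3, a ≠ b → opp w i a ≠ opp w i b := by
    intro a b hab hne
    have := h.2 (i, a) (i, b) ⟨rfl, hab⟩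
    rw [sum_eq, sum_eq] at this
    apply this
    fin_cases a <;> fin_cases b <;> simp at hne hab ⊢ <;> linarith
  intro a b hab
  by_contra hne
  exact key a b hne hab

lemma opp_mem {m : ℕ} {S : Set ℝ} {w : Sym2 (Fin m × Fin 3) → ℝ}
    (h : ProperBySums S (triangles m) w) (i : Fin m) (a : Fin 3) : opp w i a ∈ S := by
  refine h.1 _ _ ⟨rfl, ?_⟩
  fin_cases a <;> simp

theorem triangles_unique (S : Set ℝ) (hS : S.ncard = 3) (m : ℕ) :
    UniquelyWeightColourable S (triangles m) := by
  classical
  have hfin : S.Finite := Set.finite_of_ncard_pos (by omega)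
  obtain ⟨f⟩ : Nonempty (Fin 3 ≃ S) := by
    have := hfin.fintype
    have h3 : Fintype.card S = 3 := by
      rw [← Nat.card_eq_fintype_card, Nat.card_coe_set_eq, hS]
    exact ⟨(Fintype.equivFinOfCardEq h3).symm⟩
  constructor
  · -- existence
    let g : (Fin m × Fin 3) → (Fin m × Fin 3) → ℝ := fun p q => (f (- (p.2 + q.2)) : ℝ)
    have hg : ∀ p q, g p q = g q p := fun p q => by simp [g, add_comm]
    refine ⟨Sym2.lift ⟨g, hg⟩, ?_⟩
    have hopp : ∀ i a, opp (Sym2.lift ⟨g, hg⟩) i a = f a := by
      intro i a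
      simp only [opp, Sym2.lift_mk, g]
      congr 2
      fin_cases a <;> decide
    constructor
    · intro u v _
      simp only [Sym2.lift_mk, g]
      exact (f _).2
    · rintro ⟨i, a⟩ ⟨j, b⟩ ⟨hij, hab⟩
      simp only at hij hab
      subst hij
      rw [sum_eq, sum_eq, hopp, hopp, hopp, hopp]
      have hinj : ∀ x y : Fin 3, x ≠ y → (f x : ℝ) ≠ f y := fun x y hxy h =>
        hxy (f.injective (Subtype.ext h))
      have h01 := hinj 0 1 (by decide)
      have h02 := hinj 0 2 (by decide)
      have h12 := hinj 1 2 (by decide)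
      intro h
      fin_cases a <;> fin_cases b <;> simp at h hab <;>
        first
        | exact h01 (by linarith)
        | exact h02 (by linarith)
        | exact h12 (by linarith)
  · -- uniqueness
    intro w w' hw hw'
    have hbij : ∀ (v : Sym2 (Fin m × Fin 3) → ℝ), ProperBySums S (triangles m) v → ∀ i,
        ∃ g : Fin 3 ≃ S, ∀ a, (g a : ℝ) = opp v i a := by
      intro v hv i
      refine ⟨Equiv.ofBijective (fun a : Fin 3 => (⟨opp v i a, opp_mem hv i a⟩ : S)) ?_,
        fun a => rfl⟩
      have := hfin.fintype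
      rw [Fintype.bijective_iff_injective_and_card]
      refine ⟨fun a b hab => opp_injective hv i (by simpa using hab), ?_⟩
      rw [Fintype.card_congr f]
    choose e he using hbij w hw
    choose e' he' using hbij w' hw'
    let p : Fin m → Equiv.Perm (Fin 3) := fun i => (e i).trans (e' i).symm
    have hp : ∀ i a, opp w' i (p i a) = opp w i a := by
      intro i a
      have h1 : e' i (p i a) = e i a := by simp [p]
      rw [← he', ← he, h1]
    refine ⟨⟨Equiv.prodShear (Equiv.refl _) p, ?_⟩, ?_⟩
    · rintro ⟨i, a⟩ ⟨j, b⟩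
      simp only [triangles_adj, Equiv.prodShear_apply, Equiv.refl_apply]
      constructor
      · rintro ⟨rfl, h⟩
        exact ⟨rfl, fun hab => h (congrArg (p i) hab)⟩
      · rintro ⟨h1, h2⟩
        subst h1
        exact ⟨rfl, fun hab => h2 ((p i).injective hab)⟩
    · rintro ⟨i, a⟩ ⟨j, b⟩ ⟨hij, hab⟩
      simp only at hij hab
      subst hij
      obtain ⟨c, hca, hcb⟩ : ∃ c : Fin 3, c ≠ a ∧ c ≠ b := by
        fin_cases a <;> fin_cases b <;> simp_all <;> decide
      rw [edge_eq w i a b c hab hca hcb, ← hp]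
      exact edge_eq w' i (p i a) (p i b) (p i c) (fun h => hab ((p i).injective h))
        (fun h => hca ((p i).injective h)) (fun h => hcb ((p i).injective h))

lemma vertexSum_transfer {V W : Type} [Fintype V] [Fintype W] {G : SimpleGraph V}
    {H : SimpleGraph W} (ψ : G ≃g H) (w : Sym2 W → ℝ) (v : V) :
    vertexSum G (fun e => w (Sym2.map ψ e)) v = vertexSum H w (ψ v) := by
  classical
  unfold vertexSum
  refine Finset.sum_bij (fun u _ => ψ u) ?_ ?_ ?_ ?_
  · intro u hu
    simp only [Finset.mem_filter, Finset.mem_univ, true_and] at hu ⊢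
    exact ψ.map_adj_iff.2 hu
  · intro a _ b _ h
    exact ψ.injective h
  · intro b hb
    simp only [Finset.mem_filter, Finset.mem_univ, true_and] at hb
    refine ⟨ψ.symm b, ?_, by simp⟩
    simp only [Finset.mem_filter, Finset.mem_univ, true_and]
    rw [← ψ.map_adj_iff]
    simpa using hb
  · intro a _
    simp

lemma proper_transfer {V W : Type} [Fintype V] [Fintype W] {G : SimpleGraph V}
    {H : SimpleGraph W} (ψ : G ≃g H) {S : Set ℝ} {w : Sym2 W → ℝ} (h : ProperBySums S H w) :
    ProperBySums S G (fun e => w (Sym2.map ψ e)) := by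
  constructor
  · intro u v huv
    simpa using h.1 _ _ (ψ.map_adj_iff.2 huv)
  · intro u v huv
    rw [vertexSum_transfer, vertexSum_transfer]
    exact h.2 _ _ (ψ.map_adj_iff.2 huv)

lemma unique_transfer {V W : Type} [Fintype V] [Fintype W] {G : SimpleGraph V}
    {H : SimpleGraph W} (ψ : G ≃g H) {S : Set ℝ} (h : UniquelyWeightColourable S H) :
    UniquelyWeightColourable S G := by
  obtain ⟨⟨w, hw⟩, h2⟩ := h
  refine ⟨⟨_, proper_transfer ψ hw⟩, fun w w' hw hw' => ?_⟩
  obtain ⟨φ, hφ⟩ := h2 _ _ (proper_transfer ψ.symm hw) (proper_transfer ψ.symm hw')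
  refine ⟨(ψ.trans φ).trans ψ.symm, fun u v huv => ?_⟩
  have := hφ _ _ (ψ.map_adj_iff.2 huv)
  simpa using this

/-- Some graph with an edge has, up to isomorphism, exactly one edge `{1,2,3}`-weighting that properly
colours its vertices by sums: the triangle `K₃`. Moreover, for every set `S` of three reals and every
`m`, the disjoint union of `m` triangles is uniquely `S`-weight colourable. -/
theorem result :
    ((⊤ : SimpleGraph (Fin 3)) ≠ ⊥ ∧
      UniquelyWeightColourable ({1, 2, 3} : Set ℝ) (⊤ : SimpleGraph (Fin 3))) ∧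
    ∀ S : Set ℝ, S.ncard = 3 → ∀ m : ℕ, UniquelyWeightColourable S (triangles m) := by
  refine ⟨⟨?_, ?_⟩, fun S hS m => triangles_unique S hS m⟩
  · intro h
    have : (⊤ : SimpleGraph (Fin 3)).Adj 0 1 := by simp
    rw [h] at this
    simp at this
  · have hS : ({1, 2, 3} : Set ℝ).ncard = 3 := by
      rw [Set.ncard_eq_toFinset_card']
      norm_num
    refine unique_transfer ⟨(Equiv.uniqueProd (Fin 3) (Fin 1)).symm, ?_⟩ (triangles_unique _ hS 1)
    intro a b
    simp [triangles_adj]

end Pool.Agent.Results.MP_9e9a14_co.TriangleUniqueH29
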